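import Pool.Agent.L7h95.CD.Stm3

set_option autoImplicit false

namespace Pool.Agent.L7h61.CD

open Finset Function
open Pool.Agent.L7h95.CD

theorem pt_add {m s : ℕ} (u u' : Fin m → ZMod 2) (y y' : Fin s → ZMod 2) (x x' : Fin 2 → ZMod 2) :
    pt u y x + pt u' y' x' = pt (u + u') (y + y') (x + x') := by
  funext i
  rcases i with i | i | i <;> rfl

theorem pt_inj {m s : ℕ} {u u' : Fin m → ZMod 2} {y y' : Fin s → ZMod 2} {x x' : Fin 2 → ZMod 2}
    (h : pt u y x = pt u' y' x') : u = u' ∧ y = y' ∧ x = x' :=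
  ⟨funext fun i => congrFun h (Sum.inl i), funext fun i => congrFun h (Sum.inr (Sum.inl i)),
    funext fun i => congrFun h (Sum.inr (Sum.inr i))⟩

theorem lay_ne (q : ℕ) : lay q ≠ 0 := by
  unfold lay
  split_ifs with h
  · intro h1
    have := congrFun h1 0
    simp at this
  · intro h1
    have := congrFun h1 1
    simp at this

theorem lay_par {q q' : ℕ} (h : lay q = lay q') : q % 2 = 0 ↔ q' % 2 = 0 := by
  unfold lay at h
  by_cases h1 : q % 2 = 0
  · by_cases h2 : q' % 2 = 0
    · simp [h1, h2]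
    · rw [if_pos h1, if_neg h2] at h
      have := congrFun h 0
      simp at this
  · by_cases h2 : q' % 2 = 0
    · rw [if_neg h1, if_pos h2] at h
      have := congrFun h 0
      simp at this
    · simp [h1, h2]

theorem dist_le {s : ℕ} {x y : Fin s → ZMod 2} {a b : Fin s}
    (h : x + Pi.single a 1 = y + Pi.single b 1) : hammingDist x y ≤ 2 := by
  unfold hammingDist
  refine (card_le_card (t := {a, b}) ?_).trans Finset.card_le_two
  intro i hi
  rw [mem_filter] at hi
  rw [mem_insert, mem_singleton]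
  by_contra hcon
  push Not at hcon
  apply hi.2
  have := congrFun h i
  simpa [Pi.single_eq_of_ne hcon.1, Pi.single_eq_of_ne hcon.2] using this

theorem dist_le' {s : ℕ} {x y : Fin s → ZMod 2} {a : Fin s}
    (h : x + Pi.single a 1 = y) : hammingDist x y ≤ 2 := by
  unfold hammingDist
  refine (card_le_card (t := {a}) ?_).trans (by simp)
  intro i hi
  rw [mem_filter] at hi
  rw [mem_singleton]
  by_contra hcon
  apply hi.2
  have := congrFun h i
  simpa [Pi.single_eq_of_ne hcon] using this

theorem far_eq {s N : ℕ} {z : ℕ → Fin s → ZMod 2} {a b c : ℕ → Fin s} (hC : CodeP s N z a b c)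
    {q q' : ℕ} (hq : q < N) (hq' : q' < N) (h : hammingDist (z q) (z q') ≤ 2) : q = q' := by
  rcases lt_trichotomy q q' with h1 | h1 | h1
  · have := hC.far q q' h1 hq'
    omega
  · exact h1
  · have := hC.far q' q h1 hq
    rw [hammingDist_comm] at this
    omega

theorem single_inj {s : ℕ} {i j : Fin s} (h : (Pi.single i 1 : Fin s → ZMod 2) = Pi.single j 1) :
    i = j := by
  by_contra hne
  have := congrFun h i
  rw [Pi.single_eq_same, Pi.single_eq_of_ne hne] at this
  exact one_ne_zero this

theorem single_ne {s : ℕ} (i : Fin s) : (Pi.single i 1 : Fin s → ZMod 2) ≠ 0 := by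
  intro h
  have := congrFun h i
  rw [Pi.single_eq_same] at this
  exact one_ne_zero this

theorem gray_eq {m : ℕ} {c0 : ℕ → Fin m} {γ : ℕ → Fin m → ZMod 2} (hG : Gray m c0 γ)
    {r r' : ℕ} (hr : r < 2 ^ m) (hr' : r' < 2 ^ m) (h : γ r = γ r') : r = r' := by
  rcases lt_trichotomy r r' with h1 | h1 | h1
  · exact absurd h (hG.inj r r' h1 hr')
  · exact h1
  · exact absurd h.symm (hG.inj r' r h1 hr)

theorem s_U5 (h4 : S_U4) : S_U5 := by
  intro m s N c0 γ z a b c hG hC A hm hs
  have hlt : ∀ q r, Ok m N q r → q < N := by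
    intro q r h
    rcases h with ⟨h, _⟩ | ⟨h, _⟩ <;> omega
  -- the forms of the leaves
  have lo : ∀ q r (j : Fin A), r < 2 ^ m → lf γ z a b q r hm hs j =
      pt (if q % 2 = 0 then γ r else γ (2 ^ m - 1 - r)) (z q + Pi.single (Fin.castLE hs j) 1) 0 := by
    intro q r j h
    unfold lf bp
    rw [if_pos h, if_pos h, pt_add, add_zero, add_zero]
  have hi : ∀ q r, ¬ r < 2 ^ m → ∃ w : Fin s → ZMod 2, bp γ z a b q r =
      pt (if q % 2 = 0 then γ (2 ^ m - 1) else γ 0) w (lay q) ∧
      ∀ j : Fin A, lf γ z a b q r hm hs j =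
        pt ((if q % 2 = 0 then γ (2 ^ m - 1) else γ 0) + Pi.single (Fin.castLE hm j) 1) w (lay q) := by
    intro q r h
    refine ⟨_, by unfold bp; rw [if_neg h], fun j => ?_⟩
    unfold lf bp
    rw [if_neg h, if_neg h, pt_add, add_zero, add_zero]
  have blo : ∀ q r, r < 2 ^ m → bp γ z a b q r =
      pt (if q % 2 = 0 then γ r else γ (2 ^ m - 1 - r)) (z q) 0 := by
    intro q r h
    unfold bp
    rw [if_pos h]
  refine ⟨?_, ?_⟩
  · intro q r q' r' j hok hok' heq
    by_cases hr : r < 2 ^ m
    · by_cases hr' : r' < 2 ^ m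
      · rw [lo q r j hr, blo q' r' hr'] at heq
        obtain ⟨-, h2, -⟩ := pt_inj heq
        have h3 := far_eq hC (hlt _ _ hok) (hlt _ _ hok') (dist_le' h2)
        subst h3
        exact single_ne _ (add_eq_left.1 h2)
      · obtain ⟨w, hw, -⟩ := hi q' r' hr'
        rw [lo q r j hr, hw] at heq
        exact lay_ne q' (pt_inj heq).2.2.symm
    · obtain ⟨w, hw, hw'⟩ := hi q r hr
      by_cases hr' : r' < 2 ^ m
      · rw [hw' j, blo q' r' hr'] at heq
        exact lay_ne q (pt_inj heq).2.2
      · obtain ⟨w₂, hw₂, -⟩ := hi q' r' hr'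
        rw [hw' j, hw₂] at heq
        obtain ⟨h1, -, h3⟩ := pt_inj heq
        have hp := lay_par h3
        simp only [hp] at h1
        exact single_ne _ (add_eq_left.1 h1)
  · intro q r q' r' j j' hok hok' heq
    by_cases hr : r < 2 ^ m
    · by_cases hr' : r' < 2 ^ m
      · rw [lo q r j hr, lo q' r' j' hr'] at heq
        obtain ⟨h1, h2, -⟩ := pt_inj heq
        have h3 := far_eq hC (hlt _ _ hok) (hlt _ _ hok') (dist_le h2)
        subst h3
        refine ⟨rfl, ?_, ?_⟩
        · by_cases hq : q % 2 = 0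
          · rw [if_pos hq, if_pos hq] at h1
            exact gray_eq hG hr hr' h1
          · rw [if_neg hq, if_neg hq] at h1
            have := gray_eq hG (by omega) (by omega) h1
            omega
        · have h5 := single_inj (add_left_cancel h2)
          exact Fin.castLE_injective hs h5
      · obtain ⟨w, -, hw⟩ := hi q' r' hr'
        rw [lo q r j hr, hw j'] at heq
        exact absurd (pt_inj heq).2.2.symm (lay_ne q')
    · obtain ⟨w, hw, hw'⟩ := hi q r hr
      by_cases hr' : r' < 2 ^ m
      · rw [hw' j, lo q' r' j' hr'] at heq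
        exact absurd (pt_inj heq).2.2 (lay_ne q)
      · obtain ⟨w₂, hw₂, hw₂'⟩ := hi q' r' hr'
        rw [hw' j, hw₂' j'] at heq
        obtain ⟨h1, h2, h3⟩ := pt_inj heq
        have hp := lay_par h3
        simp only [hp] at h1
        have h5 := Fin.castLE_injective hm (single_inj (add_left_cancel h1))
        have h6 : bp γ z a b q r = bp γ z a b q' r' := by
          rw [hw, hw₂, h2, h3]
          simp only [hp]
        obtain ⟨h7, h8⟩ := h4 m s N c0 γ z a b c hG hC q r q' r' hok hok' h6
        exact ⟨h7, h8, h5⟩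

end Pool.Agent.L7h61.CD
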